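import Pool.Agent.H23.BG.TargetsW

/-! Rows W_EX and W_VZ of the board brg_modules. -/

set_option autoImplicit false

open Polynomial

namespace Pool.Agent.H77.BG

open Pool.Agent.H23.BG

theorem pf_W_EX : W_EX := by
  classical
  intro F _ m d c K M ζ Φ hΦ hmc hdim
  -- the polynomials with given coefficients
  obtain ⟨kl, hkl⟩ : ∃ kl : Fin d → Fin K → ((Fin d × Fin K × Fin (c - m) → F) →ₗ[F] F[X]),
      ∀ i j v, kl i j v = ∑ t : Fin (c - m), C (v (i, j, t)) * X ^ (t : ℕ) := by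
    refine ⟨fun i j => ∑ t : Fin (c - m),
      (LinearMap.proj (R := F) (φ := fun _ => F) (i, j, t)).smulRight (X ^ (t : ℕ)), ?_⟩
    intro i j v
    rw [LinearMap.sum_apply]
    refine Finset.sum_congr rfl fun t _ => ?_
    rw [LinearMap.smulRight_apply, LinearMap.proj_apply, smul_eq_C_mul]
  have hcoeff : ∀ i j v (t : Fin (c - m)), (kl i j v).coeff t = v (i, j, t) := by
    intro i j v t
    rw [hkl, finsetSum_coeff, Finset.sum_eq_single t]
    · rw [coeff_C_mul, coeff_X_pow_self, mul_one]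
    · intro s _ hs
      rw [coeff_C_mul, coeff_X_pow, if_neg (fun h => hs (Fin.ext h.symm)), mul_zero]
    · intro h
      exact absurd (Finset.mem_univ t) h
  have hdeg : ∀ i j v, (kl i j v).natDegree ≤ c - m - 1 := by
    intro i j v
    rw [hkl]
    refine natDegree_sum_le_of_forall_le _ _ fun t _ => ?_
    refine (natDegree_C_mul_X_pow_le _ _).trans ?_
    have := t.2
    omega
  obtain ⟨G, hG⟩ : ∃ G : ℕ → ((Fin d × Fin K × Fin (c - m) → F) →ₗ[F] F[X]),
      ∀ l v, G l v = ∑ i : Fin d, ∑ j : Fin K,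
        C (ζ ^ (i : ℕ)) * X ^ (j : ℕ) * Φ l i (kl i j v) := by
    refine ⟨fun l => ∑ i : Fin d, ∑ j : Fin K,
      (LinearMap.mulLeft F (C (ζ ^ (i : ℕ)) * X ^ (j : ℕ))) ∘ₗ (Φ l i) ∘ₗ (kl i j), ?_⟩
    intro l v
    rw [LinearMap.sum_apply]
    refine Finset.sum_congr rfl fun i _ => ?_
    rw [LinearMap.sum_apply]
    refine Finset.sum_congr rfl fun j _ => ?_
    rw [LinearMap.comp_apply, LinearMap.comp_apply, LinearMap.mulLeft_apply]
  have hGdeg : ∀ l v, (G l v).natDegree < c + K + l * m := by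
    intro l v
    rw [hG]
    have hK : 0 < K := by
      rcases Nat.eq_zero_or_pos K with h | h
      · rw [h] at hdim
        simp at hdim
      · exact h
    refine lt_of_le_of_lt (natDegree_sum_le_of_forall_le (n := K - 1 + (c - m - 1 + l * (m - 1)))
      _ _ fun i _ => natDegree_sum_le_of_forall_le _ _ fun j _ => ?_) ?_
    · refine natDegree_mul_le.trans (add_le_add ?_ (hΦ l i _ _ (hdeg i j v)))
      refine (natDegree_C_mul_X_pow_le _ _).trans ?_
      have := j.2
      omega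
    · have h1 : l * (m - 1) ≤ l * m := Nat.mul_le_mul_left _ (Nat.sub_le _ _)
      omega
  obtain ⟨T, hT⟩ : ∃ T : (Fin d × Fin K × Fin (c - m) → F) →ₗ[F]
      ((Σ l : Fin M, Fin (c + K + (l : ℕ) * m)) → F),
      ∀ v (l : Fin M) (s : Fin (c + K + (l : ℕ) * m)), T v ⟨l, s⟩ = (G l v).coeff s := by
    refine ⟨LinearMap.pi fun p => (lcoeff F (p.2 : ℕ)) ∘ₗ (G p.1), ?_⟩
    intro v l s
    rfl
  have hfr : Module.finrank F ((Σ l : Fin M, Fin (c + K + (l : ℕ) * m)) → F) <
      Module.finrank F (Fin d × Fin K × Fin (c - m) → F) := by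
    rw [Module.finrank_fintype_fun_eq_card, Module.finrank_fintype_fun_eq_card,
      Fintype.card_prod, Fintype.card_prod, Fintype.card_sigma, Fintype.card_fin,
      Fintype.card_fin, Fintype.card_fin, ← mul_assoc]
    refine lt_of_le_of_lt ?_ hdim
    simp only [Fintype.card_fin]
    refine (Finset.sum_le_card_nsmul _ _ (c + K + M * m) fun l _ => ?_).trans ?_
    · have h1 : (l : ℕ) * m ≤ M * m := Nat.mul_le_mul_right _ l.2.le
      omega
    · rw [Finset.card_univ, Fintype.card_fin, smul_eq_mul]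
      apply le_of_eq
      ring
  have hker := T.ker_ne_bot_of_finrank_lt hfr
  obtain ⟨v, hv, hv0⟩ := Submodule.exists_mem_ne_zero_of_ne_bot hker
  rw [LinearMap.mem_ker] at hv
  refine ⟨fun i j => kl i j v, ?_, fun i j => ?_, fun l hl => ?_⟩
  · by_contra hcon
    push Not at hcon
    apply hv0
    funext p
    obtain ⟨i, j, t⟩ := p
    rw [← hcoeff i j v t, hcon i j, coeff_zero]
    rfl
  · have h1 := hdeg i j v
    show (kl i j v).natDegree + m < c
    omega
  · rw [← hG]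
    ext s
    rw [coeff_zero]
    rcases lt_or_ge s (c + K + l * m) with hs | hs
    · have h1 := hT v ⟨l, hl⟩ ⟨s, hs⟩
      rw [hv] at h1
      exact h1.symm
    · exact coeff_eq_zero_of_natDegree_lt ((hGdeg l v).trans_le hs)

theorem pf_W_VZ : W_VZ := by
  classical
  intro F _ _ f d c K M ζ hf hcard hM Φ hΦ k hk x hx
  obtain ⟨q, hq⟩ : ∃ q, q = d * c + 1 := ⟨_, rfl⟩
  rw [← hq] at hcard
  -- the polynomial with `X ^ q` replaced by `x`
  have hX : (X : F[X]) ^ q - C x = (X - C x) ^ q := by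
    obtain ⟨p, hp⟩ := CharP.exists F
    obtain ⟨n, hprime, hn⟩ := FiniteField.card F p
    have := Fact.mk hprime
    rw [hcard] at hn
    have h1 := sub_pow_char_pow (p := p) (n := (n : ℕ)) (X : F[X]) (C x)
    rw [hn, h1, ← C_pow]
    have h2 : x ^ p ^ (n : ℕ) = x := by
      rw [← hn, ← hcard]
      exact FiniteField.pow_card x
    rw [h2]
  have hdiff : (X - C x) ^ M ∣ f ^ M * ∑ i : Fin d, ∑ j : Fin K,
      k i j * (f ^ c) ^ (i : ℕ) * X ^ ((j : ℕ) * q) -
      f ^ M * ∑ i : Fin d, ∑ j : Fin K, k i j * (f ^ c) ^ (i : ℕ) * C x ^ (j : ℕ) := by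
    rw [← mul_sub, ← Finset.sum_sub_distrib]
    refine Dvd.dvd.mul_left (Finset.dvd_sum fun i _ => ?_) _
    rw [← Finset.sum_sub_distrib]
    refine Finset.dvd_sum fun j _ => ?_
    rw [← mul_sub]
    refine Dvd.dvd.mul_left ?_ _
    have h1 : (X - C x) ^ M ∣ (X : F[X]) ^ q - C x := by
      rw [hX]
      exact pow_dvd_pow _ (by rw [← hcard]; exact hM)
    refine h1.trans ?_
    rw [mul_comm (j : ℕ) q, pow_mul]
    exact sub_dvd_pow_sub_pow _ _ _
  have hmain : (X - C x) ^ M ∣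
      f ^ M * ∑ i : Fin d, ∑ j : Fin K, k i j * (f ^ c) ^ (i : ℕ) * C x ^ (j : ℕ) := by
    rw [X_sub_C_pow_dvd_iff, ← taylor_apply, X_pow_dvd_iff]
    intro l hl
    rw [taylor_coeff]
    have e1 : f ^ M * ∑ i : Fin d, ∑ j : Fin K, k i j * (f ^ c) ^ (i : ℕ) * C x ^ (j : ℕ) =
        ∑ i : Fin d, ∑ j : Fin K, (x ^ (j : ℕ)) • (f ^ (M + c * (i : ℕ)) * k i j) := by
      rw [Finset.mul_sum]
      refine Finset.sum_congr rfl fun i _ => ?_
      rw [Finset.mul_sum]
      refine Finset.sum_congr rfl fun j _ => ?_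
      rw [smul_eq_C_mul, C_pow, pow_add, pow_mul]
      ring
    rw [e1, map_sum, eval_finsetSum]
    have e2 : ∀ i : Fin d, eval x (hasseDeriv l (∑ j : Fin K,
        (x ^ (j : ℕ)) • (f ^ (M + c * (i : ℕ)) * k i j))) =
        ∑ j : Fin K, (f.eval x) ^ (M - l) * (ζ ^ (i : ℕ) * x ^ (j : ℕ) *
          (Φ l i (k i j)).eval x) := by
      intro i
      rw [map_sum, eval_finsetSum]
      refine Finset.sum_congr rfl fun j _ => ?_
      rw [map_smul, hΦ l i hl.le, eval_smul, eval_mul, eval_pow, smul_eq_mul]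
      have h1 : M + c * (i : ℕ) - l = (M - l) + c * (i : ℕ) := by omega
      rw [h1, pow_add, pow_mul, hx]
      ring
    rw [Finset.sum_congr rfl fun i _ => e2 i]
    have h3 := congrArg (eval x) (hk l hl)
    rw [eval_zero, eval_finsetSum] at h3
    have h4 : ∀ i : Fin d, eval x (∑ j : Fin K, C (ζ ^ (i : ℕ)) * X ^ (j : ℕ) * Φ l i (k i j)) =
        ∑ j : Fin K, ζ ^ (i : ℕ) * x ^ (j : ℕ) * (Φ l i (k i j)).eval x := by
      intro i
      rw [eval_finsetSum]
      refine Finset.sum_congr rfl fun j _ => ?_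
      rw [eval_mul, eval_mul, eval_C, eval_pow, eval_X]
    rw [Finset.sum_congr rfl fun i _ => h4 i] at h3
    simp only [← Finset.mul_sum]
    rw [h3, mul_zero]
  have h := dvd_add hdiff hmain
  rw [sub_add_cancel] at h
  rw [← hq]
  exact h

end Pool.Agent.H77.BG
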