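import Pool.Agent.H23.BG.TargetsW

/-! Row W_ST of the board brg_modules. -/

set_option autoImplicit false

open Polynomial

namespace Pool.Agent.H77.BG

open Pool.Agent.H23.BG

/-- the estimate in natural numbers -/
theorem st_nat (hHD : W_HD) (hNV : W_NV) (hEX : W_EX) (hVZ : W_VZ) (F : Type) [Field F]
    [Fintype F] [DecidableEq F] (f : F[X]) (d m c u : ℕ) (ζ : F) (hd : 2 ≤ d) (hm : 1 ≤ m)
    (hcop : Nat.Coprime m d) (hfm : f.natDegree = m) (hcard : Fintype.card F = d * c + 1)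
    (hmc : m < c) (hM : d * u ≤ Fintype.card F)
    (hdim : (d * u) * (c + (u + 1)) + (d * u) ^ 2 * m < d * (u + 1) * (c - m)) :
    (d * u) * (Finset.univ.filter fun x : F => f.eval x ^ c = ζ).card ≤
      (d * u) * m + (c + d * (c * m) + u * (d * c + 1)) := by
  classical
  have hf : f ≠ 0 := by
    rintro rfl
    rw [natDegree_zero] at hfm
    omega
  obtain ⟨M, hMd⟩ : ∃ M, M = d * u := ⟨_, rfl⟩
  rw [← hMd] at hM hdim ⊢
  have hex : ∀ (l : ℕ) (i : Fin d), ∃ Φ : F[X] →ₗ[F] F[X], (l ≤ M → ∀ k : F[X],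
      hasseDeriv l (f ^ (M + c * (i : ℕ)) * k) = f ^ (M + c * (i : ℕ) - l) * Φ k) ∧
      ∀ (k : F[X]) (D : ℕ), k.natDegree ≤ D → (Φ k).natDegree ≤ D + l * (m - 1) := by
    intro l i
    by_cases hl : l ≤ M
    · obtain ⟨Φ, h1, h2⟩ := hHD F f hf (M + c * (i : ℕ)) l (hl.trans (Nat.le_add_right _ _))
      rw [hfm] at h2
      exact ⟨Φ, fun _ => h1, h2⟩
    · refine ⟨0, fun h => absurd h hl, fun k D _ => ?_⟩
      rw [LinearMap.zero_apply, natDegree_zero]
      exact Nat.zero_le _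
  choose Φ hΦ1 hΦ2 using hex
  obtain ⟨k, hk1, hk2, hk3⟩ := hEX F m d c (u + 1) M ζ Φ hΦ2 hmc hdim
  obtain ⟨r, hr⟩ : ∃ r, r = f ^ M * ∑ i : Fin d, ∑ j : Fin (u + 1),
      k i j * (f ^ c) ^ (i : ℕ) * X ^ ((j : ℕ) * (d * c + 1)) := ⟨_, rfl⟩
  have hr0 : r ≠ 0 := by
    rw [hr]
    refine mul_ne_zero (pow_ne_zero _ hf) fun h => ?_
    have h1 := hNV F f d c (u + 1) (by omega) (by omega) (by rw [hfm]; exact hcop) k
      (by rw [hfm]; exact hk2) h
    obtain ⟨i, j, hij⟩ := hk1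
    exact hij (h1 i j)
  have hdvd : ∏ x ∈ Finset.univ.filter (fun x : F => f.eval x ^ c = ζ), (X - C x) ^ M ∣ r := by
    refine Finset.prod_dvd_of_coprime ?_ fun x hx => ?_
    · intro x _ y _ hxy
      have h1 : IsCoprime ((X : F[X]) - C x) (X - C y) :=
        isCoprime_X_sub_C_of_isUnit_sub (sub_ne_zero.2 hxy).isUnit
      exact h1.pow
    · rw [hr]
      exact hVZ F f d c (u + 1) M ζ hf hcard hM Φ (fun l i hl => hΦ1 l i hl) k hk3 x
        (Finset.mem_filter.1 hx).2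
  have hdeg1 := natDegree_le_of_dvd hdvd hr0
  rw [Finset.prod_pow, natDegree_pow, natDegree_finsetProd_X_sub_C_eq_card] at hdeg1
  refine hdeg1.trans ?_
  rw [hr]
  refine natDegree_mul_le.trans (add_le_add ?_ ?_)
  · rw [natDegree_pow, hfm]
  · refine natDegree_sum_le_of_forall_le _ _ fun i _ =>
      natDegree_sum_le_of_forall_le _ _ fun j _ => ?_
    refine natDegree_mul_le.trans (add_le_add (natDegree_mul_le.trans (add_le_add ?_ ?_)) ?_)
    · have := hk2 i j
      omega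
    · rw [natDegree_pow, natDegree_pow, hfm]
      exact Nat.mul_le_mul_right _ i.2.le
    · rw [natDegree_X_pow]
      exact Nat.mul_le_mul_right _ (Nat.lt_succ_iff.1 j.2)

/-- the conditions -/
theorem st_cond (d m c u M : ℕ) (hd : 2 ≤ d) (hm : 1 ≤ m) (hu : 1 ≤ u) (hM : M = d * u)
    (h : 16 * (m + 2) ^ 2 * M ^ 2 ≤ d * c + 1) :
    m < c ∧ M ≤ d * c + 1 ∧ M * (c + (u + 1)) + M ^ 2 * m < d * (u + 1) * (c - m) := by
  have hM1 : 1 ≤ M := by
    rw [hM]
    exact Nat.mul_pos (by omega) hu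
  have hdM : d ≤ M := by
    rw [hM]
    exact Nat.le_mul_of_pos_right _ hu
  have huM : u ≤ M := by
    rw [hM]
    exact Nat.le_mul_of_pos_left _ (by omega)
  have hMM : M ≤ M ^ 2 := by nlinarith
  have hmc : m < c := by
    by_contra hcon
    push Not at hcon
    have h1 : d * c ≤ d * m := Nat.mul_le_mul_left _ hcon
    have h2 : d * m ≤ M ^ 2 * m := Nat.mul_le_mul_right _ (hdM.trans hMM)
    nlinarith [sq_nonneg M, Nat.zero_le (M ^ 2 * m)]
  refine ⟨hmc, ?_, ?_⟩
  · nlinarith [Nat.zero_le (M ^ 2 * m)]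
  · obtain ⟨e, he⟩ : ∃ e, c = e + m := ⟨c - m, by omega⟩
    have he2 : c - m = e := by omega
    rw [he2, he]
    rw [he] at h
    have e1 : d * (u + 1) * e = M * e + d * e := by rw [hM]; ring
    rw [e1]
    have h3 : d * (e + m) = d * e + d * m := by ring
    rw [h3] at h
    have h4 : d * m ≤ M ^ 2 * m := Nat.mul_le_mul_right _ (hdM.trans hMM)
    have h5 : M * m ≤ M ^ 2 * m := Nat.mul_le_mul_right _ hMM
    have h6 : M * u ≤ M ^ 2 := by nlinarith
    have h7 : 0 < M ^ 2 := by positivity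
    have h8 : 16 * (m + 2) ^ 2 * M ^ 2 = 16 * m ^ 2 * M ^ 2 + 64 * (M ^ 2 * m) + 64 * M ^ 2 := by
      ring
    rw [h8] at h
    have h9 : M * (e + m + (u + 1)) + M ^ 2 * m = M * e + (M * m + M * u + M + M ^ 2 * m) := by
      ring
    rw [h9]
    have h10 : 0 ≤ 16 * m ^ 2 * M ^ 2 := Nat.zero_le _
    omega

theorem pf_W_ST (hHD : W_HD) (hNV : W_NV) (hEX : W_EX) (hVZ : W_VZ) : W_ST := by
  intro d m hd hm hcop
  refine ⟨4 * d * (m + 2) + m + 8 * (m + 2) * (1 + d * m), by positivity, ?_⟩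
  intro F _ _ _ f hfm c hcard ζ
  obtain ⟨n, hn⟩ : ∃ n, n = (Finset.univ.filter fun x : F => f.eval x ^ c = ζ).card := ⟨_, rfl⟩
  rw [← hn]
  have hnq : n ≤ Fintype.card F := by
    rw [hn]
    exact Finset.card_le_univ _
  obtain ⟨q, hq⟩ : ∃ q, q = Fintype.card F := ⟨_, rfl⟩
  obtain ⟨s, hs⟩ : ∃ s : ℝ, s = Real.sqrt (q : ℝ) := ⟨_, rfl⟩
  rw [← hq] at hcard hnq ⊢
  rw [← hs]
  have hq1 : (1 : ℝ) ≤ q := by
    rw [hcard]
    push_cast
    have : (0 : ℝ) ≤ (d : ℝ) * c := by positivity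
    linarith
  have hss : s * s = q := by
    rw [hs]
    exact Real.mul_self_sqrt (by linarith)
  have hs1 : 1 ≤ s := by
    rw [hs]
    exact Real.one_le_sqrt.2 hq1
  have hd' : (2 : ℝ) ≤ d := by exact_mod_cast hd
  have hm' : (1 : ℝ) ≤ m := by exact_mod_cast hm
  have hn' : (n : ℝ) ≤ q := by exact_mod_cast hnq
  obtain ⟨A, hA⟩ : ∃ A : ℝ, A = 4 * d * (m + 2) := ⟨_, rfl⟩
  have hApos : 0 < A := by
    rw [hA]
    positivity
  obtain ⟨u, hu⟩ : ∃ u : ℕ, u = ⌊s / A⌋₊ := ⟨_, rfl⟩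
  have hu1 : (u : ℝ) * A ≤ s := by
    have h1 : (u : ℝ) ≤ s / A := by
      rw [hu]
      exact Nat.floor_le (by positivity)
    rwa [le_div_iff₀ hApos] at h1
  have hu2 : s < (u + 1) * A := by
    have h1 : s / A < u + 1 := by
      rw [hu]
      exact Nat.lt_floor_add_one _
    rwa [div_lt_iff₀ hApos] at h1
  have hqd : 0 ≤ (q : ℝ) / d := by positivity
  have hBpos : 0 ≤ (8 : ℝ) * (m + 2) * (1 + d * m) := by positivity
  rcases Nat.eq_zero_or_pos u with h0 | hupos
  · rw [h0] at hu2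
    simp only [Nat.cast_zero, zero_add, one_mul] at hu2
    have h1 : (q : ℝ) ≤ A * s := by
      rw [← hss]
      nlinarith
    have h2 : (4 * d * (m + 2) + m + 8 * (m + 2) * (1 + d * m)) * s =
        A * s + (m + 8 * (m + 2) * (1 + d * m)) * s := by rw [hA]; ring
    rw [h2]
    have h3 : 0 ≤ ((m : ℝ) + 8 * (m + 2) * (1 + d * m)) * s := by positivity
    linarith
  · obtain ⟨M, hM⟩ : ∃ M, M = d * u := ⟨_, rfl⟩
    have hM' : (M : ℝ) = d * u := by rw [hM]; push_cast; ring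
    have hu' : (1 : ℝ) ≤ u := by exact_mod_cast hupos
    have hcond : 16 * (m + 2) ^ 2 * M ^ 2 ≤ d * c + 1 := by
      have h1 : 4 * ((m : ℝ) + 2) * M ≤ s := by
        rw [hM']
        have : 4 * ((m : ℝ) + 2) * (d * u) = u * A := by rw [hA]; ring
        rw [this]
        exact hu1
      have h2 : (4 * ((m : ℝ) + 2) * M) * (4 * ((m : ℝ) + 2) * M) ≤ s * s :=
        mul_self_le_mul_self (by positivity) h1
      rw [hss] at h2
      rw [← hcard]
      have h3 : ((16 * (m + 2) ^ 2 * M ^ 2 : ℕ) : ℝ) ≤ (q : ℝ) := by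
        push_cast
        nlinarith
      exact_mod_cast h3
    obtain ⟨c1, c2, c3⟩ := st_cond d m c u M hd hm hupos hM hcond
    have hmain := st_nat hHD hNV hEX hVZ F f d m c u ζ hd hm hcop hfm (hq ▸ hcard) c1
      (by rw [← hq, ← hM, hcard]; exact c2) (by rw [← hM]; exact c3)
    rw [← hn, ← hcard, ← hM] at hmain
    have hmain' : (M : ℝ) * n ≤ M * m + (c + d * (c * m) + u * q) := by
      exact_mod_cast hmain
    -- the bound for `c`
    have hdc : (d : ℝ) * c ≤ q := by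
      rw [hcard]
      push_cast
      linarith
    have hs2 : s ≤ 2 * u * A := by nlinarith
    have hc1 : (c : ℝ) ≤ 8 * (m + 2) * u * s := by
      have h1 : (d : ℝ) * c ≤ 2 * u * A * s := by
        refine hdc.trans ?_
        rw [← hss]
        nlinarith
      have h2 : 2 * u * A * s = d * (8 * (m + 2) * u * s) := by rw [hA]; ring
      rw [h2] at h1
      exact le_of_mul_le_mul_left h1 (by linarith)
    have hMpos : 0 < (M : ℝ) := by
      rw [hM']
      positivity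
    have hc2 : (c : ℝ) ≤ M * (8 * (m + 2) * s) := by
      refine hc1.trans ?_
      rw [hM']
      have h3 : 0 ≤ 8 * ((m : ℝ) + 2) * u * s := by positivity
      nlinarith
    have huq : (u : ℝ) * q = M * (q / d) := by
      rw [hM']
      field_simp
    have hfin : (M : ℝ) * n ≤ M * (q / d + (m + 8 * (m + 2) * (1 + d * m)) * s) := by
      refine hmain'.trans ?_
      rw [huq]
      have h4 : (c : ℝ) + d * (c * m) = c * (1 + d * m) := by ring
      rw [h4]
      have h5 : (c : ℝ) * (1 + d * m) ≤ M * (8 * (m + 2) * s) * (1 + d * m) :=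
        mul_le_mul_of_nonneg_right hc2 (by positivity)
      have h6 : (M : ℝ) * m ≤ M * (m * s) := by
        refine mul_le_mul_of_nonneg_left ?_ hMpos.le
        nlinarith
      nlinarith
    have h7 := le_of_mul_le_mul_left hfin hMpos
    refine h7.trans ?_
    have h8 : 0 ≤ 4 * (d : ℝ) * (m + 2) * s := by positivity
    nlinarith

end Pool.Agent.H77.BG
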